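import Mathlib

/-!
# Good subsets of ordered sets (definitions)
-/

set_option autoImplicit false

namespace Pool.Agent.H149Z.GoodSub

/-- Every nonempty chain has a supremum and an infimum. -/
def ChainComplete (P : Type) [PartialOrder P] : Prop :=
  ∀ C : Set P, IsChain (· ≤ ·) C → C.Nonempty → (∃ s, IsLUB C s) ∧ (∃ i, IsGLB C i)

/-- Every antichain is finite. -/
def NoInfiniteAntichain (P : Type) [PartialOrder P] : Prop :=
  ∀ A : Set P, IsAntichain (· ≤ ·) A → A.Finite

variable {P : Type} [PartialOrder P]

/-- In the ordered set `S` (a subset of `P` with the induced order), `p` is funneled through `q`: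
every maximal chain of `S` containing `p` contains `q`. -/
def Funneled (S : Set P) (p q : S) : Prop :=
  ∀ C : Set S, IsMaxChain (· ≤ ·) C → p ∈ C → q ∈ C

/-- `Q` is a good subset of the ordered set `S`: every point of `S` is funneled through exactly
one point of `Q`. -/
def Good (S Q : Set P) : Prop :=
  Q ⊆ S ∧ ∀ p : S, ∃! q : S, (q : P) ∈ Q ∧ Funneled S p q

/-- `Q` is a dominating subset of the ordered set `S`: every point of `S` is funneled through at
least one point of `Q`. -/
def Dominating (S Q : Set P) : Prop :=
  Q ⊆ S ∧ ∀ p : S, ∃ q : S, (q : P) ∈ Q ∧ Funneled S p q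

/-- The least `n` for which there are sets `P = T 0, T 1, ..., T n` with `R (T k) (T (k+1))` for
all `k < n` and `T n` finite (`⊤` if there is no such `n`). -/
noncomputable def steps (R : Set P → Set P → Prop) : ℕ∞ :=
  sInf {x : ℕ∞ | ∃ n : ℕ, x = n ∧ ∃ T : ℕ → Set P,
    T 0 = Set.univ ∧ (∀ k < n, R (T k) (T (k + 1))) ∧ (T n).Finite}

/-- `γ(P)`: the least number of successive passages to a good subset that leads from `P` to a
finite set. -/
noncomputable def gamma (P : Type) [PartialOrder P] : ℕ∞ := steps (P := P) Good

/-- The same number for the weaker notion of a dominating subset. -/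
noncomputable def gammaDom (P : Type) [PartialOrder P] : ℕ∞ := steps (P := P) Dominating

end Pool.Agent.H149Z.GoodSub
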