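import Pool.Agent.H149Z.GoodDefs

set_option autoImplicit false

namespace Pool.Agent.H149Z.GoodSub

open Set

section general
variable {P : Type} [PartialOrder P]

theorem funneled_iff (S : Set P) (p q : S) :
    Funneled S p q ↔ ∀ z : S, (p ≤ z ∨ z ≤ p) → (q ≤ z ∨ z ≤ q) := by
  constructor
  · intro h z hz
    have hc : IsChain (· ≤ ·) ({p, z} : Set S) := by
      intro x hx y hy _
      rcases hx with rfl | rfl <;> rcases hy with rfl | rfl
      · exact Or.inl le_rfl
      · exact hz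
      · exact hz.symm
      · exact Or.inl le_rfl
    obtain ⟨C, hC, hsub⟩ := hc.exists_maxChain
    have hq := h C hC (hsub (by simp))
    have hz' : z ∈ C := hsub (by simp)
    by_cases e : q = z
    · exact Or.inl e.le
    · exact hC.1 hq hz' e
  · intro h C hC hp
    have hc : IsChain (· ≤ ·) (insert q C) := by
      refine hC.1.insert ?_
      intro z hz _
      apply h
      by_cases e : p = z
      · exact Or.inl e.le
      · exact hC.1 hp hz e
    have := hC.2 hc (subset_insert _ _)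
    rw [this]; exact mem_insert _ _

theorem Good.dominating {S Q : Set P} (h : Good S Q) : Dominating S Q :=
  ⟨h.1, fun p => (h.2 p).exists⟩

end general

/-- The example: a grid with guard elements. -/
inductive X (L : ℕ) : Type
  | a (j : Fin L) (n : ℕ∞)
  | m (j : Fin (L + 1)) (e : Bool)
  | b (j : Fin (L + 1)) (e : Bool)

namespace X
variable {L : ℕ}

def le' : X L → X L → Prop
  | a j n, a i k => (i : ℕ) ≤ j ∧ n ≤ k
  | a i _, m j _ => (j : ℕ) ≤ i
  | b j _, a i _ => (i : ℕ) < j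
  | b _ _, m _ _ => True
  | m j e, m j' e' => j = j' ∧ e = e'
  | b j e, b j' e' => j = j' ∧ e = e'
  | a _ _, b _ _ => False
  | m _ _, a _ _ => False
  | m _ _, b _ _ => False

instance : PartialOrder (X L) where
  le := le'
  le_refl x := by cases x <;> simp [le']
  le_trans x y z := by
    cases x <;> cases y <;> cases z <;> simp only [le'] <;> intro h1 h2
    all_goals first
      | exact h1.elim
      | exact h2.elim
      | trivial
      | exact ⟨h2.1.trans h1.1, h1.2.trans h2.2⟩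
      | exact ⟨h1.1.trans h2.1, h1.2.trans h2.2⟩
      | omega
      | (obtain ⟨rfl, rfl⟩ := h2; exact h1)
      | (obtain ⟨rfl, rfl⟩ := h1; exact h2)
  le_antisymm x y := by
    cases x <;> cases y <;> simp only [le'] <;> intro h1 h2
    all_goals first
      | exact h1.elim
      | exact h2.elim
      | (obtain ⟨rfl, rfl⟩ := h1; rfl)
      | (congr 1; exact Fin.ext (le_antisymm h2.1 h1.1); exact le_antisymm h1.2 h2.2)

@[simp] theorem aa (j i : Fin L) (n k : ℕ∞) : a j n ≤ a i k ↔ (i : ℕ) ≤ j ∧ n ≤ k := Iff.rfl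
@[simp] theorem am (i : Fin L) (n : ℕ∞) (j : Fin (L + 1)) (e : Bool) :
    a i n ≤ m j e ↔ (j : ℕ) ≤ i := Iff.rfl
@[simp] theorem ba (i : Fin L) (n : ℕ∞) (j : Fin (L + 1)) (e : Bool) :
    b j e ≤ a i n ↔ (i : ℕ) < j := Iff.rfl
@[simp] theorem bm (i j : Fin (L + 1)) (e e' : Bool) : (b j e : X L) ≤ m i e' ↔ True := Iff.rfl
@[simp] theorem mm (i j : Fin (L + 1)) (e e' : Bool) :
    (m j e : X L) ≤ m i e' ↔ j = i ∧ e = e' := Iff.rfl
@[simp] theorem bb (i j : Fin (L + 1)) (e e' : Bool) :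
    (b j e : X L) ≤ b i e' ↔ j = i ∧ e = e' := Iff.rfl
@[simp] theorem ab (i : Fin L) (n : ℕ∞) (j : Fin (L + 1)) (e : Bool) :
    a i n ≤ b j e ↔ False := Iff.rfl
@[simp] theorem ma (i : Fin L) (n : ℕ∞) (j : Fin (L + 1)) (e : Bool) :
    m j e ≤ a i n ↔ False := Iff.rfl
@[simp] theorem mb (i j : Fin (L + 1)) (e e' : Bool) : (m j e : X L) ≤ b i e' ↔ False := Iff.rfl

theorem noInf : NoInfiniteAntichain (X L) := by
  intro A hA
  let f : X L → Fin L ⊕ (Fin (L + 1) × Bool) ⊕ (Fin (L + 1) × Bool) := fun x =>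
    match x with
    | a j _ => Sum.inl j
    | m j e => Sum.inr (Sum.inl (j, e))
    | b j e => Sum.inr (Sum.inr (j, e))
  refine Set.Finite.of_finite_image (f := f) (Set.toFinite _) ?_
  intro x hx y hy hxy
  cases x <;> cases y <;> simp only [f, Sum.inl.injEq, Sum.inr.injEq, Prod.mk.injEq,
    reduceCtorEq] at hxy
  · subst hxy
    rename_i j n k
    by_contra hne
    rcases le_total n k with h | h
    · exact hA hx hy hne (by simp [h])
    · exact hA hy hx (Ne.symm hne) (by simp [h])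
  · obtain ⟨rfl, rfl⟩ := hxy; rfl
  · obtain ⟨rfl, rfl⟩ := hxy; rfl

theorem exists_lub (C : Set (X L)) (hC : IsChain (· ≤ ·) C) (hne : C.Nonempty) :
    ∃ s, IsLUB C s := by
  have cmp : ∀ x ∈ C, ∀ y ∈ C, x ≤ y ∨ y ≤ x := by
    intro x hx y hy
    by_cases e : x = y
    · exact Or.inl e.le
    · exact hC hx hy e
  by_cases h1 : ∃ j e, m j e ∈ C
  · obtain ⟨j, e, h⟩ := h1
    refine ⟨m j e, IsGreatest.isLUB ⟨h, ?_⟩⟩
    intro y hy
    rcases cmp y hy _ h with h' | h'
    · exact h'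
    · cases y <;> simp_all
  by_cases h2 : ∃ j n, a j n ∈ C
  · classical
    let J : Finset (Fin L) := Finset.univ.filter (fun j => ∃ n, a j n ∈ C)
    have hJ : J.Nonempty := by
      obtain ⟨j, n, h⟩ := h2
      exact ⟨j, by simp only [J, Finset.mem_filter, Finset.mem_univ, true_and]; exact ⟨n, h⟩⟩
    obtain ⟨j0, hj0, hmin⟩ := J.exists_min_image (fun j => (j : ℕ)) hJ
    obtain ⟨n0, hn0⟩ : ∃ n, a j0 n ∈ C := by simpa [J] using hj0
    have hmin' : ∀ j n, a j n ∈ C → (j0 : ℕ) ≤ j := fun j n h =>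
      hmin j (by simp only [J, Finset.mem_filter, Finset.mem_univ, true_and]; exact ⟨n, h⟩)
    refine ⟨a j0 (sSup {n | ∃ j, a j n ∈ C}), ?_, ?_⟩
    · intro y hy
      cases y with
      | a j n => exact ⟨hmin' j n hy, le_sSup ⟨j, hy⟩⟩
      | m j e => exact (h1 ⟨j, e, hy⟩).elim
      | b j e => simpa using cmp _ hy _ hn0
    · intro y hy
      cases y with
      | a j n =>
        refine ⟨(hy hn0).1, sSup_le ?_⟩
        rintro k ⟨i, hi⟩
        exact (hy hi).2
      | m j e => simpa using hy hn0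
      | b j e => simpa using hy hn0
  · obtain ⟨x, hx⟩ := hne
    refine ⟨x, IsGreatest.isLUB ⟨hx, ?_⟩⟩
    intro y hy
    have := cmp x hx y hy
    cases x with
    | a j n => exact (h2 ⟨j, n, hx⟩).elim
    | m j e => exact (h1 ⟨j, e, hx⟩).elim
    | b j e =>
      cases y with
      | a j n => exact (h2 ⟨j, n, hy⟩).elim
      | m j e => exact (h1 ⟨j, e, hy⟩).elim
      | b j' e' =>
        rcases this with h | h
        · obtain ⟨rfl, rfl⟩ := h; exact le_rfl
        · exact h

theorem exists_glb (C : Set (X L)) (hC : IsChain (· ≤ ·) C) (hne : C.Nonempty) :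
    ∃ s, IsGLB C s := by
  have cmp : ∀ x ∈ C, ∀ y ∈ C, x ≤ y ∨ y ≤ x := by
    intro x hx y hy
    by_cases e : x = y
    · exact Or.inl e.le
    · exact hC hx hy e
  by_cases h1 : ∃ j e, b j e ∈ C
  · obtain ⟨j, e, h⟩ := h1
    refine ⟨b j e, IsLeast.isGLB ⟨h, ?_⟩⟩
    intro y hy
    rcases cmp y hy _ h with h' | h'
    · cases y <;> simp_all
    · exact h'
  by_cases h2 : ∃ j n, a j n ∈ C
  · classical
    let J : Finset (Fin L) := Finset.univ.filter (fun j => ∃ n, a j n ∈ C)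
    have hJ : J.Nonempty := by
      obtain ⟨j, n, h⟩ := h2
      exact ⟨j, by simp only [J, Finset.mem_filter, Finset.mem_univ, true_and]; exact ⟨n, h⟩⟩
    obtain ⟨j0, hj0, hmax⟩ := J.exists_max_image (fun j => (j : ℕ)) hJ
    obtain ⟨n0, hn0⟩ : ∃ n, a j0 n ∈ C := by simpa [J] using hj0
    have hmax' : ∀ j n, a j n ∈ C → (j : ℕ) ≤ j0 := fun j n h =>
      hmax j (by simp only [J, Finset.mem_filter, Finset.mem_univ, true_and]; exact ⟨n, h⟩)
    refine ⟨a j0 (sInf {n | ∃ j, a j n ∈ C}), ?_, ?_⟩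
    · intro y hy
      cases y with
      | a j n => exact ⟨hmax' j n hy, sInf_le ⟨j, hy⟩⟩
      | b j e => exact (h1 ⟨j, e, hy⟩).elim
      | m j e => simpa using cmp _ hy _ hn0
    · intro y hy
      cases y with
      | a j n =>
        refine ⟨(hy hn0).1, le_sInf ?_⟩
        rintro k ⟨i, hi⟩
        exact (hy hi).2
      | m j e => simpa using hy hn0
      | b j e => simpa using hy hn0
  · obtain ⟨x, hx⟩ := hne
    refine ⟨x, IsLeast.isGLB ⟨hx, ?_⟩⟩
    intro y hy
    have := cmp x hx y hy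
    cases x with
    | a j n => exact (h2 ⟨j, n, hx⟩).elim
    | b j e => exact (h1 ⟨j, e, hx⟩).elim
    | m j e =>
      cases y with
      | a j n => exact (h2 ⟨j, n, hy⟩).elim
      | b j e => exact (h1 ⟨j, e, hy⟩).elim
      | m j' e' =>
        rcases this with h | h
        · exact h
        · obtain ⟨rfl, rfl⟩ := h; exact le_rfl

theorem chainComplete : ChainComplete (X L) :=
  fun C hC hne => ⟨exists_lub C hC hne, exists_glb C hC hne⟩

/-- `S` contains all guards. -/
def Guarded (S : Set (X L)) : Prop := (∀ j e, m j e ∈ S) ∧ (∀ j e, b j e ∈ S)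

/-- Domination of comparability neighbourhoods inside `S`. -/
def Dom (S : Set (X L)) (p q : X L) : Prop := ∀ z ∈ S, (p ≤ z ∨ z ≤ p) → (q ≤ z ∨ z ≤ q)

theorem fun_iff (S : Set (X L)) (p q : S) : Funneled S p q ↔ Dom S p q := by
  rw [funneled_iff]
  constructor
  · intro h z hz; exact h ⟨z, hz⟩
  · intro h z; exact h z z.2

theorem dom_m {S : Set (X L)} (hS : Guarded S) (j : Fin (L + 1)) (e : Bool) (q : X L)
    (h : Dom S (m j e) q) : q = m j e := by
  cases q with
  | a i k => simpa using h (b i.castSucc e) (hS.2 _ _) (by simp)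
  | m i e' =>
    have := h (m j e) (hS.1 _ _) (by simp)
    simp only [mm] at this
    rcases this with ⟨rfl, rfl⟩ | ⟨rfl, rfl⟩ <;> rfl
  | b i e' =>
    have := h (b i (!e')) (hS.2 _ _) (by simp)
    cases e' <;> simp at this

theorem dom_b {S : Set (X L)} (hS : Guarded S) (j : Fin (L + 1)) (e : Bool) (q : X L)
    (h : Dom S (b j e) q) : q = b j e := by
  cases q with
  | a i k => simpa using h (m i.succ e) (hS.1 _ _) (by simp)
  | b i e' =>
    have := h (b j e) (hS.2 _ _) (by simp)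
    simp only [bb] at this
    rcases this with ⟨rfl, rfl⟩ | ⟨rfl, rfl⟩ <;> rfl
  | m i e' =>
    have := h (m i (!e')) (hS.1 _ _) (by simp)
    cases e' <;> simp at this

theorem dom_a {S : Set (X L)} (hS : Guarded S) (j : Fin L) (n : ℕ∞) (hp : a j n ∈ S) (q : X L)
    (h : Dom S (a j n) q) : ∃ k, q = a j k := by
  cases q with
  | a i k =>
    have h1 := h (m j.castSucc true) (hS.1 _ _) (by simp)
    have h2 := h (b j.succ true) (hS.2 _ _) (by simp)
    simp only [am, ma, ab, ba, Fin.val_castSucc, Fin.val_succ, or_false, false_or] at h1 h2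
    have : i = j := Fin.ext (by omega)
    exact ⟨k, by rw [this]⟩
  | m i e =>
    have h1 := h _ hp (Or.inl le_rfl)
    have h2 := h (m i (!e)) (hS.1 _ _) (by simpa using h1)
    cases e <;> simp at h2
  | b i e =>
    have h1 := h _ hp (Or.inl le_rfl)
    have h2 := h (b i (!e)) (hS.2 _ _) (by simpa using h1)
    cases e <;> simp at h2

theorem dom_mid {S : Set (X L)} (hS : Guarded S) (j : Fin L) (n : ℕ∞) (hp : a j n ∈ S)
    (i i' : Fin L) (hi : (i : ℕ) < j) (hi' : (j : ℕ) < i') (h1 : a i n ∈ S) (h2 : a i' n ∈ S)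
    (q : X L) (h : Dom S (a j n) q) : q = a j n := by
  obtain ⟨k, rfl⟩ := dom_a hS j n hp q h
  have e1 := h _ h1 (Or.inl ⟨hi.le, le_rfl⟩)
  have e2 := h _ h2 (Or.inr ⟨hi'.le, le_rfl⟩)
  simp only [aa] at e1 e2
  have f1 : k ≤ n := by
    rcases e1 with e | e
    · exact e.2
    · omega
  have f2 : n ≤ k := by
    rcases e2 with e | e
    · omega
    · exact e.2
  rw [le_antisymm f1 f2]

/-- The `k`-th stage of the reduction. -/
def T (L k : ℕ) : Set (X L) := fun x =>
  match x with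
  | a j n => ((j : ℕ) < k → n = ⊤) ∧ (L ≤ j + k → n = 0)
  | m _ _ => True
  | b _ _ => True

theorem mem_T (k : ℕ) (j : Fin L) (n : ℕ∞) :
    a j n ∈ T L k ↔ ((j : ℕ) < k → n = ⊤) ∧ (L ≤ j + k → n = 0) := Iff.rfl

theorem guarded_T (k : ℕ) : Guarded (T L k) := ⟨fun _ _ => trivial, fun _ _ => trivial⟩

theorem T_zero : T L 0 = univ := by
  ext x
  cases x with
  | a j n =>
    simp only [mem_T, mem_univ, iff_true]
    have := j.2
    exact ⟨by omega, by omega⟩
  | m j e => exact ⟨fun _ => trivial, fun _ => trivial⟩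
  | b j e => exact ⟨fun _ => trivial, fun _ => trivial⟩

theorem T_sub (k : ℕ) : T L (k + 1) ⊆ T L k := by
  intro x hx
  cases x with
  | a j n => exact ⟨fun h => hx.1 (by omega), fun h => hx.2 (by omega)⟩
  | m j e => trivial
  | b j e => trivial

theorem T_fin (N : ℕ) : (T (2 * N) N).Finite := by
  let f : X (2 * N) → Fin (2 * N) ⊕ (Fin (2 * N + 1) × Bool) ⊕ (Fin (2 * N + 1) × Bool) := fun x =>
    match x with
    | a j _ => Sum.inl j
    | m j e => Sum.inr (Sum.inl (j, e))
    | b j e => Sum.inr (Sum.inr (j, e))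
  refine Set.Finite.of_finite_image (f := f) (Set.toFinite _) ?_
  intro x hx y hy hxy
  cases x <;> cases y <;> simp only [f, Sum.inl.injEq, Sum.inr.injEq, Prod.mk.injEq,
    reduceCtorEq] at hxy
  · subst hxy
    rename_i j n k
    by_cases h : (j : ℕ) < N
    · rw [hx.1 h, hy.1 h]
    · rw [hx.2 (by omega), hy.2 (by omega)]
  · obtain ⟨rfl, rfl⟩ := hxy; rfl
  · obtain ⟨rfl, rfl⟩ := hxy; rfl

theorem T_good (N k : ℕ) (hk : k < N) : Good (T (2 * N) k) (T (2 * N) (k + 1)) := by
  refine ⟨T_sub k, ?_⟩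
  rintro ⟨p, hp⟩
  have hG := guarded_T (L := 2 * N) k
  cases p with
  | m j e =>
    refine ⟨⟨m j e, hp⟩, ⟨trivial, fun _ _ h => h⟩, ?_⟩
    rintro q ⟨_, hq⟩
    exact Subtype.ext (dom_m hG j e q ((fun_iff _ _ _).1 hq))
  | b j e =>
    refine ⟨⟨b j e, hp⟩, ⟨trivial, fun _ _ h => h⟩, ?_⟩
    rintro q ⟨_, hq⟩
    exact Subtype.ext (dom_b hG j e q ((fun_iff _ _ _).1 hq))
  | a j n =>
    have hj := j.2
    by_cases h1 : (j : ℕ) ≤ k
    · have hm : a j ⊤ ∈ T (2 * N) (k + 1) := ⟨fun _ => rfl, by omega⟩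
      refine ⟨⟨a j ⊤, T_sub k hm⟩, ⟨hm, (fun_iff _ _ _).2 ?_⟩, ?_⟩
      · intro z hz hc
        cases z with
        | a i l =>
          by_cases h : (i : ℕ) < j
          · left
            exact ⟨h.le, by rw [hz.1 (by omega)]⟩
          · right
            exact ⟨by omega, le_top⟩
        | m i e => simpa using hc
        | b i e => simpa using hc
      · rintro ⟨q, hq0⟩ ⟨hq1, hq⟩
        obtain ⟨l, rfl⟩ := dom_a hG j n hp q ((fun_iff _ _ _).1 hq)
        apply Subtype.ext
        show a j l = a j ⊤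
        rw [hq1.1 (by omega)]
    by_cases h2 : 2 * N ≤ j + (k + 1)
    · have hm : a j 0 ∈ T (2 * N) (k + 1) := ⟨by omega, fun _ => rfl⟩
      refine ⟨⟨a j 0, T_sub k hm⟩, ⟨hm, (fun_iff _ _ _).2 ?_⟩, ?_⟩
      · intro z hz hc
        cases z with
        | a i l =>
          by_cases h : (j : ℕ) < i
          · right
            exact ⟨h.le, by rw [hz.2 (by omega)]⟩
          · left
            exact ⟨by omega, zero_le⟩
        | m i e => simpa using hc
        | b i e => simpa using hc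
      · rintro ⟨q, hq0⟩ ⟨hq1, hq⟩
        obtain ⟨l, rfl⟩ := dom_a hG j n hp q ((fun_iff _ _ _).1 hq)
        apply Subtype.ext
        show a j l = a j 0
        rw [hq1.2 h2]
    · refine ⟨⟨a j n, hp⟩, ⟨⟨by omega, by omega⟩, fun _ _ h => h⟩, ?_⟩
      rintro ⟨q, hq0⟩ ⟨_, hq⟩
      apply Subtype.ext
      exact dom_mid hG j n hp ⟨j - 1, by omega⟩ ⟨j + 1, by omega⟩ (by simp; omega) (by simp)
        ⟨by simp; omega, by simp; omega⟩ ⟨by simp; omega, by simp; omega⟩ q
        ((fun_iff _ _ _).1 hq)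

theorem lower (U : ℕ → Set (X L)) (h0 : U 0 = univ) (n : ℕ)
    (hU : ∀ k < n, Dominating (U k) (U (k + 1))) (k : ℕ) (hk : k ≤ n) :
    Guarded (U k) ∧ ∀ (j : Fin L) (l : ℕ∞), k ≤ j → j + k < L → a j l ∈ U k := by
  induction k with
  | zero => simp [h0, Guarded]
  | succ k ih =>
    obtain ⟨hG, hA⟩ := ih (by omega)
    have hD := hU k (by omega)
    refine ⟨⟨?_, ?_⟩, ?_⟩
    · intro j e
      obtain ⟨q, hq1, hq⟩ := hD.2 ⟨m j e, hG.1 j e⟩
      rwa [dom_m hG j e q ((fun_iff _ _ _).1 hq)] at hq1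
    · intro j e
      obtain ⟨q, hq1, hq⟩ := hD.2 ⟨b j e, hG.2 j e⟩
      rwa [dom_b hG j e q ((fun_iff _ _ _).1 hq)] at hq1
    · intro j l h1 h2
      have hp := hA j l (by omega) (by omega)
      obtain ⟨q, hq1, hq⟩ := hD.2 ⟨a j l, hp⟩
      rwa [dom_mid hG j l hp ⟨j - 1, by omega⟩ ⟨j + 1, by omega⟩ (by simp; omega) (by simp)
        (hA _ l (by simp; omega) (by simp; omega)) (hA _ l (by simp; omega) (by simp; omega)) q
        ((fun_iff _ _ _).1 hq)] at hq1

theorem lower' (N n : ℕ) (U : ℕ → Set (X (2 * N))) (h0 : U 0 = univ)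
    (hU : ∀ k < n, Dominating (U k) (U (k + 1))) (hf : (U n).Finite) : N ≤ n := by
  by_contra hlt
  have h := (lower U h0 n hU n le_rfl).2 ⟨n, by omega⟩
  refine Set.infinite_of_injective_forall_mem (f := fun l : ℕ∞ => a ⟨n, by omega⟩ l) ?_
    (fun l => h l (by simp) (by simp; omega)) hf
  intro x y hxy
  simpa using hxy

theorem steps_eq (N : ℕ) (R : Set (X (2 * N)) → Set (X (2 * N)) → Prop)
    (h1 : ∀ S Q, Good S Q → R S Q) (h2 : ∀ S Q, R S Q → Dominating S Q) : steps R = N := by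
  apply le_antisymm
  · exact sInf_le ⟨N, rfl, T (2 * N), T_zero, fun k hk => h1 _ _ (T_good N k hk), T_fin N⟩
  · apply le_sInf
    rintro x ⟨n, rfl, U, h0, hU, hf⟩
    exact_mod_cast lower' N n U h0 (fun k hk => h2 _ _ (hU k hk)) hf

end X

theorem main (N : ℕ) : ∃ (P : Type) (_ : PartialOrder P),
    ChainComplete P ∧ NoInfiniteAntichain P ∧ gamma P = N ∧ gammaDom P = N :=
  ⟨X (2 * N), inferInstance, X.chainComplete, X.noInf,
    X.steps_eq N _ (fun _ _ h => h) (fun _ _ h => h.dominating),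
    X.steps_eq N _ (fun _ _ h => h.dominating) (fun _ _ h => h)⟩

end Pool.Agent.H149Z.GoodSub
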