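import Mathlib

/-! A series extension of a nested matroid and its reliability function. -/

set_option autoImplicit false

namespace Pool.Agent.H149Z.Rel

open Finset

abbrev G (α β : ℕ) := Fin α ⊕ (Fin β ⊕ Fin β)

def Ind {α β : ℕ} (a r : ℕ) (I : Finset (G α β)) : Prop :=
  I.toLeft.card ≤ a ∧ I.toLeft.card + (I.toRight.toLeft ∩ I.toRight.toRight).card ≤ r

instance {α β : ℕ} (a r : ℕ) : DecidablePred (Ind (α := α) (β := β) a r) := fun _ => by
  unfold Ind; infer_instance

theorem card_eq {α β : ℕ} (I : Finset (G α β)) :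
    I.card = I.toLeft.card + (I.toRight.toLeft.card + I.toRight.toRight.card) := by
  rw [card_toLeft_add_card_toRight, card_toLeft_add_card_toRight]

theorem ind_empty {α β : ℕ} (a r : ℕ) : Ind a r (∅ : Finset (G α β)) := by
  have h1 : (∅ : Finset (G α β)).toLeft = ∅ := by ext; simp
  have h2 : (∅ : Finset (G α β)).toRight.toLeft = ∅ := by ext; simp
  unfold Ind
  rw [h1, h2]
  simp

theorem ind_subset {α β : ℕ} (a r : ℕ) ⦃I J : Finset (G α β)⦄ (hJ : Ind a r J) (h : I ⊆ J) :
    Ind a r I := by
  have h1 : I.toLeft.card ≤ J.toLeft.card := card_le_card (toLeft_subset_toLeft h)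
  have h2 : (I.toRight.toLeft ∩ I.toRight.toRight).card ≤
      (J.toRight.toLeft ∩ J.toRight.toRight).card :=
    card_le_card (inter_subset_inter (toLeft_subset_toLeft (toRight_subset_toRight h))
      (toRight_subset_toRight (toRight_subset_toRight h)))
  exact ⟨h1.trans hJ.1, by have := hJ.2; omega⟩

theorem ind_aug {α β : ℕ} (a r : ℕ) ⦃I J : Finset (G α β)⦄ (hI : Ind a r I) (hJ : Ind a r J)
    (h : I.card < J.card) : ∃ e ∈ J, e ∉ I ∧ Ind a r (insert e I) := by
  rw [card_eq I, card_eq J] at h
  have e1 := card_union_add_card_inter I.toRight.toLeft I.toRight.toRight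
  have e2 := card_union_add_card_inter J.toRight.toLeft J.toRight.toRight
  obtain ⟨hI1, hI2⟩ := hI
  obtain ⟨hJ1, hJ2⟩ := hJ
  by_cases c1 : J.toRight.toLeft ∪ J.toRight.toRight ⊆ I.toRight.toLeft ∪ I.toRight.toRight
  · have c1' := card_le_card c1
    by_cases c2 : J.toRight.toLeft ∩ J.toRight.toRight ⊆ I.toRight.toLeft ∩ I.toRight.toRight
    · have c2' := card_le_card c2
      obtain ⟨x, hx, hx'⟩ := exists_mem_notMem_of_card_lt_card
        (show I.toLeft.card < J.toLeft.card by omega)
      refine ⟨Sum.inl x, by simpa using hx, by simpa using hx', ?_⟩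
      unfold Ind
      rw [toLeft_insert_inl, toRight_insert_inl, card_insert_of_notMem hx']
      omega
    · obtain ⟨b, hb, hb'⟩ := not_subset.1 c2
      rw [mem_inter] at hb hb'
      by_cases hY : b ∈ I.toRight.toLeft
      · have hZ : b ∉ I.toRight.toRight := fun h => hb' ⟨hY, h⟩
        refine ⟨Sum.inr (Sum.inr b), by simpa using hb.2, by simpa using hZ, ?_⟩
        unfold Ind
        rw [toLeft_insert_inr, toRight_insert_inr, toLeft_insert_inr, toRight_insert_inr,
          inter_insert_of_mem hY]
        have := card_insert_le b (I.toRight.toLeft ∩ I.toRight.toRight)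
        omega
      · refine ⟨Sum.inr (Sum.inl b), by simpa using hb.1, by simpa using hY, ?_⟩
        unfold Ind
        rw [toLeft_insert_inr, toRight_insert_inr, toLeft_insert_inl, toRight_insert_inl]
        have h1 : insert b I.toRight.toLeft ∩ I.toRight.toRight ⊆
            insert b (I.toRight.toLeft ∩ I.toRight.toRight) := by
          intro x hx
          simp only [mem_inter, mem_insert] at hx ⊢
          tauto
        have h2 := card_le_card h1
        have := card_insert_le b (I.toRight.toLeft ∩ I.toRight.toRight)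
        omega
  · obtain ⟨b, hb, hb'⟩ := not_subset.1 c1
    rw [mem_union] at hb hb'
    have hY : b ∉ I.toRight.toLeft := fun h => hb' (Or.inl h)
    have hZ : b ∉ I.toRight.toRight := fun h => hb' (Or.inr h)
    rcases hb with hb | hb
    · refine ⟨Sum.inr (Sum.inl b), by simpa using hb, by simpa using hY, ?_⟩
      unfold Ind
      rw [toLeft_insert_inr, toRight_insert_inr, toLeft_insert_inl, toRight_insert_inl,
        insert_inter_of_notMem hZ]
      omega
    · refine ⟨Sum.inr (Sum.inr b), by simpa using hb, by simpa using hZ, ?_⟩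
      unfold Ind
      rw [toLeft_insert_inr, toRight_insert_inr, toLeft_insert_inr, toRight_insert_inr,
        inter_insert_of_notMem hY]
      omega

noncomputable def N (α β a r : ℕ) : Matroid (G α β) :=
  (IndepMatroid.ofFinset Set.univ (Ind a r) (ind_empty a r) (ind_subset a r) (ind_aug a r)
    (fun _ _ => Set.subset_univ _)).matroid

theorem N_ground (α β a r : ℕ) : (N α β a r).E = Set.univ := rfl

theorem N_indep (α β a r : ℕ) (I : Finset (G α β)) : (N α β a r).Indep I ↔ Ind a r I := by
  unfold N
  rw [IndepMatroid.matroid_indep_iff, IndepMatroid.ofFinset_indep]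

/-- The reliability function. -/
noncomputable def rel (α β a r : ℕ) (p : ℝ) : ℝ :=
  ∑ I : Finset (G α β), if Ind a r I then p ^ I.card * (1 - p) ^ (α + (β + β) - I.card) else 0

/-- The binomial distribution function, by recursion. -/
def d (y : ℝ) : ℕ → ℕ → ℝ
  | 0, _ => 1
  | β + 1, 0 => (1 - y) * d y β 0
  | β + 1, k + 1 => (1 - y) * d y β (k + 1) + y * d y β k

noncomputable def wt {B : Type} (p : ℝ) (s Y : Finset B) : ℝ :=
  p ^ Y.card * (1 - p) ^ (s.card - Y.card)

theorem wt_insert {B : Type} [DecidableEq B] (p : ℝ) {s Y : Finset B} {b : B} (hb : b ∉ s)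
    (hY : Y ⊆ s) : wt p (insert b s) Y = (1 - p) * wt p s Y ∧
      wt p (insert b s) (insert b Y) = p * wt p s Y := by
  have h1 := card_le_card hY
  have h2 : b ∉ Y := fun h => hb (hY h)
  unfold wt
  rw [card_insert_of_notMem hb, card_insert_of_notMem h2]
  constructor
  · rw [show s.card + 1 - Y.card = (s.card - Y.card) + 1 by omega]; ring
  · rw [show s.card + 1 - (Y.card + 1) = s.card - Y.card by omega]; ring

theorem pair_sum {B : Type} [DecidableEq B] (p : ℝ) (s : Finset B) (k : ℕ) :
    ∑ Y ∈ s.powerset, ∑ Z ∈ s.powerset,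
      (if (Y ∩ Z).card ≤ k then wt p s Y * wt p s Z else 0) = d (p ^ 2) s.card k := by
  induction s using Finset.induction_on generalizing k with
  | empty => simp [wt, d]
  | insert b s hb ih =>
    rw [card_insert_of_notMem hb, sum_powerset_insert hb]
    simp_rw [sum_powerset_insert hb]
    have key : ∀ Y ∈ s.powerset, ∀ Z ∈ s.powerset,
        (Y ∩ insert b Z = Y ∩ Z) ∧ (insert b Y ∩ Z = Y ∩ Z) ∧
          ((insert b Y ∩ insert b Z).card = (Y ∩ Z).card + 1) := by
      intro Y hY Z hZ
      have h1 : b ∉ Y := fun h => hb (mem_powerset.1 hY h)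
      have h2 : b ∉ Z := fun h => hb (mem_powerset.1 hZ h)
      refine ⟨inter_insert_of_notMem h1, insert_inter_of_notMem h2, ?_⟩
      rw [insert_inter_of_mem (mem_insert_self _ _), inter_insert_of_notMem h1,
        card_insert_of_notMem (fun h => h1 (mem_inter.1 h).1)]
    rw [← sum_add_distrib]
    simp_rw [← sum_add_distrib]
    cases k with
    | zero =>
      rw [d, ← ih 0, mul_sum]
      refine sum_congr rfl fun Y hY => ?_
      rw [mul_sum]
      refine sum_congr rfl fun Z hZ => ?_
      obtain ⟨k1, k2, k3⟩ := key Y hY Z hZ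
      obtain ⟨y1, y2⟩ := wt_insert p hb (mem_powerset.1 hY)
      obtain ⟨z1, z2⟩ := wt_insert p hb (mem_powerset.1 hZ)
      rw [k1, k2, k3, y1, y2, z1, z2]
      by_cases h : (Y ∩ Z).card ≤ 0
      · rw [if_pos h, if_pos h, if_pos h, if_pos h, if_neg (by omega)]; ring
      · rw [if_neg h, if_neg h, if_neg h, if_neg h, if_neg (by omega)]; ring
    | succ k =>
      rw [d, ← ih k, ← ih (k + 1), mul_sum, mul_sum, ← sum_add_distrib]
      refine sum_congr rfl fun Y hY => ?_
      rw [mul_sum, mul_sum, ← sum_add_distrib]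
      refine sum_congr rfl fun Z hZ => ?_
      obtain ⟨k1, k2, k3⟩ := key Y hY Z hZ
      obtain ⟨y1, y2⟩ := wt_insert p hb (mem_powerset.1 hY)
      obtain ⟨z1, z2⟩ := wt_insert p hb (mem_powerset.1 hZ)
      rw [k1, k2, k3, y1, y2, z1, z2]
      by_cases h : (Y ∩ Z).card ≤ k
      · have h' : (Y ∩ Z).card ≤ k + 1 := by omega
        rw [if_pos h', if_pos h', if_pos h', if_pos h', if_pos h, if_pos (by omega)]; ring
      · by_cases h' : (Y ∩ Z).card ≤ k + 1
        · rw [if_pos h', if_pos h', if_pos h', if_pos h', if_neg h, if_neg (by omega)]; ring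
        · rw [if_neg h', if_neg h', if_neg h', if_neg h', if_neg h, if_neg (by omega)]; ring

theorem rel_eq (α β a r : ℕ) (ha : a ≤ α) (har : a ≤ r) (p : ℝ) :
    rel α β a r p = ∑ i ∈ range (a + 1),
      (α.choose i : ℝ) * (p ^ i * (1 - p) ^ (α - i) * d (p ^ 2) β (r - i)) := by
  have e1 : rel α β a r p = ∑ X : Finset (Fin α), ∑ Y : Finset (Fin β), ∑ Z : Finset (Fin β),
      if X.card ≤ a ∧ X.card + (Y ∩ Z).card ≤ r then
        p ^ (X.card + (Y.card + Z.card)) *
          (1 - p) ^ (α + (β + β) - (X.card + (Y.card + Z.card))) else 0 := by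
    unfold rel
    rw [← (sumEquiv (α := Fin α) (β := Fin β ⊕ Fin β)).symm.toEquiv.sum_comp, Fintype.sum_prod_type]
    refine sum_congr rfl fun X _ => ?_
    rw [← (sumEquiv (α := Fin β) (β := Fin β)).symm.toEquiv.sum_comp, Fintype.sum_prod_type]
    refine sum_congr rfl fun Y _ => sum_congr rfl fun Z _ => ?_
    simp [Ind]
  have e2 : ∀ X : Finset (Fin α), (∑ Y : Finset (Fin β), ∑ Z : Finset (Fin β),
      if X.card ≤ a ∧ X.card + (Y ∩ Z).card ≤ r then
        p ^ (X.card + (Y.card + Z.card)) *
          (1 - p) ^ (α + (β + β) - (X.card + (Y.card + Z.card))) else 0) =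
      if X.card ≤ a then p ^ X.card * (1 - p) ^ (α - X.card) * d (p ^ 2) β (r - X.card)
        else 0 := by
    intro X
    by_cases h : X.card ≤ a
    · have := pair_sum p (univ : Finset (Fin β)) (r - X.card)
      rw [powerset_univ, card_fin] at this
      rw [if_pos h, ← this, mul_sum]
      refine sum_congr rfl fun Y _ => ?_
      rw [mul_sum]
      refine sum_congr rfl fun Z _ => ?_
      have hX : X.card ≤ α := by simpa using card_le_univ X
      have hY : Y.card ≤ β := by simpa using card_le_univ Y
      have hZ : Z.card ≤ β := by simpa using card_le_univ Z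
      by_cases h' : (Y ∩ Z).card ≤ r - X.card
      · rw [if_pos h', if_pos ⟨h, by omega⟩]
        unfold wt
        rw [card_fin, show α + (β + β) - (X.card + (Y.card + Z.card)) =
          (α - X.card) + ((β - Y.card) + (β - Z.card)) by omega]
        ring
      · rw [if_neg h', if_neg (fun hh => h' (by omega)), mul_zero]
    · simp [h]
  rw [e1]
  simp_rw [e2]
  have := sum_powerset_apply_card (fun i => if i ≤ a then
    p ^ i * (1 - p) ^ (α - i) * d (p ^ 2) β (r - i) else 0) (x := (univ : Finset (Fin α)))
  rw [powerset_univ, card_fin] at this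
  rw [this]
  symm
  refine sum_subset_zero_on_sdiff (range_mono (by omega)) ?_ ?_
  · intro i hi
    simp only [mem_sdiff, mem_range] at hi
    rw [if_neg (by omega), smul_zero]
  · intro i hi
    rw [mem_range] at hi
    rw [if_pos (by omega), nsmul_eq_mul]

/-- The reliability function as a polynomial of the frozen form. -/
theorem exists_poly (C : ℝ) (hC : ∀ (n : ℕ) (M : Matroid (Fin n)), M.E = Set.univ →
      ∀ z : ℂ,
        (∑ S : Finset (Fin n),
          (open Classical in if M.Spanning (↑S : Set (Fin n)) then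
            z ^ (Finset.card S) * (1 - z) ^ (n - Finset.card S) else 0)) = 0 →
        ‖z‖ ≤ C) (α β a r : ℕ) :
    ∃ f : Polynomial ℂ, f.natDegree ≤ α + (β + β) ∧ (∀ z, f.IsRoot z → ‖z‖ ≤ C + 1) ∧
      ∀ p : ℝ, f.eval (p : ℂ) = (rel α β a r p : ℝ) := by
  classical
  set n := α + (β + β) with hn
  let e : G α β ≃ Fin n := (Equiv.sumCongr (Equiv.refl _) finSumFinEquiv).trans finSumFinEquiv
  let f : Polynomial ℂ := ∑ I : Finset (G α β),
    if Ind a r I then Polynomial.X ^ I.card * (1 - Polynomial.X) ^ (n - I.card) else 0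
  have hev : ∀ z : ℂ, f.eval z =
      ∑ I : Finset (G α β), if Ind a r I then z ^ I.card * (1 - z) ^ (n - I.card) else 0 := by
    intro z
    simp only [f, Polynomial.eval_finsetSum]
    refine sum_congr rfl fun I _ => ?_
    split_ifs <;> simp
  have hcard : ∀ I : Finset (G α β), I.card ≤ n := by
    intro I
    simpa [hn] using card_le_univ I
  refine ⟨f, ?_, ?_, ?_⟩
  · refine Polynomial.natDegree_sum_le_of_forall_le _ _ fun I _ => ?_
    split_ifs
    · refine Polynomial.natDegree_mul_le.trans ?_
      have h1 : (Polynomial.X ^ I.card : Polynomial ℂ).natDegree ≤ I.card := by simp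
      have h2 : ((1 - Polynomial.X : Polynomial ℂ) ^ (n - I.card)).natDegree ≤ n - I.card := by
        refine Polynomial.natDegree_pow_le.trans ?_
        have : (1 - Polynomial.X : Polynomial ℂ).natDegree ≤ 1 := by compute_degree
        nlinarith
      have := hcard I
      omega
    · simp
  · intro z hz
    have h := hC n ((N α β a r).mapEquiv e)✶ (by simp [N_ground]) (1 - z) ?_
    · have : ‖z‖ ≤ ‖(1 : ℂ)‖ + ‖1 - z‖ := by
        simpa using norm_sub_le (1 : ℂ) (1 - z)
      simp only [norm_one] at this
      linarith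
    · rw [Polynomial.IsRoot, hev] at hz
      refine Eq.trans ?_ hz
      let φ : Finset (G α β) ≃ Finset (Fin n) :=
        e.finsetCongr.trans (Function.Involutive.toPerm compl compl_involutive)
      rw [← φ.sum_comp]
      refine sum_congr rfl fun I _ => ?_
      have hφ : φ I = (I.map e.toEmbedding)ᶜ := rfl
      have hsp : ((N α β a r).mapEquiv e)✶.Spanning (↑(φ I) : Set (Fin n)) ↔ Ind a r I := by
        rw [Matroid.spanning_iff_compl_coindep (by simp [N_ground]), Matroid.coindep_def,
          Matroid.dual_dual, Matroid.mapEquiv_indep_iff, ← N_indep]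
        have : e.symm '' (((N α β a r).mapEquiv e)✶.E \ ↑(φ I)) = ↑I := by
          ext x
          simp [hφ, N_ground, Equiv.image_symm_eq_preimage]
        rw [this]
      have hc : (φ I).card = n - I.card := by
        rw [hφ, card_compl, card_map, Fintype.card_fin]
      rw [hc]
      by_cases h : Ind a r I
      · rw [if_pos (hsp.2 h), if_pos h, show n - (n - I.card) = I.card by have := hcard I; omega]
        ring
      · rw [if_neg (fun hh => h (hsp.1 hh)), if_neg h]
  · intro p
    rw [hev]
    unfold rel
    push_cast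
    refine sum_congr rfl fun I _ => ?_
    split_ifs <;> simp [hn]

end Pool.Agent.H149Z.Rel
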