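import Pool.Agent.H149Z.RelA

/-! Analytic estimates for the reliability function. -/

set_option autoImplicit false

namespace Pool.Agent.H149Z.Rel

open Finset

theorem one_root (u : ℂ) (h : ℝ) (hh : 0 ≤ h) (hu : 1 ≤ u.re) :
    (1 - 2 * h ^ 3) * (‖u‖ ^ 3 * ‖u + 2 * h‖) ≤ ‖u - h‖ * ‖u + h‖ ^ 3 ∧
      ‖u - h‖ * ‖u + h‖ ^ 3 ≤ (1 + 2 * h ^ 3) * (‖u‖ ^ 3 * ‖u + 2 * h‖) := by
  have e1 : (u - h) * (u + h) ^ 3 = u ^ 3 * (u + 2 * h) - (h : ℂ) ^ 3 * (2 * u + h) := by ring
  have n1 : 1 ≤ ‖u‖ := hu.trans (Complex.re_le_norm u)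
  have n2 : ‖2 * u + h‖ ≤ 2 * ‖u + 2 * h‖ := by
    have : ‖2 * u + h‖ ^ 2 ≤ (2 * ‖u + 2 * h‖) ^ 2 := by
      rw [mul_pow, Complex.sq_norm, Complex.sq_norm, Complex.normSq_apply, Complex.normSq_apply]
      simp
      nlinarith
    exact le_of_sq_le_sq this (by positivity)
  have n3 : ‖(h : ℂ) ^ 3 * (2 * u + h)‖ ≤ 2 * h ^ 3 * (‖u‖ ^ 3 * ‖u + 2 * h‖) := by
    rw [norm_mul, norm_pow, Complex.norm_real, Real.norm_of_nonneg hh]
    have h1 : 1 ≤ ‖u‖ ^ 3 := one_le_pow₀ n1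
    have h2 : ‖u + 2 * h‖ ≤ ‖u‖ ^ 3 * ‖u + 2 * h‖ := le_mul_of_one_le_left (norm_nonneg _) h1
    have h3 : 0 ≤ h ^ 3 := by positivity
    nlinarith
  have e2 : ‖u - h‖ * ‖u + h‖ ^ 3 = ‖u ^ 3 * (u + 2 * h) - (h : ℂ) ^ 3 * (2 * u + h)‖ := by
    rw [← e1, norm_mul, norm_pow]
  have e3 : ‖u‖ ^ 3 * ‖u + 2 * h‖ = ‖u ^ 3 * (u + 2 * h)‖ := by rw [norm_mul, norm_pow]
  rw [e2]
  constructor
  · have := norm_sub_norm_le (u ^ 3 * (u + 2 * h)) ((h : ℂ) ^ 3 * (2 * u + h))
    rw [← e3] at this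
    linarith
  · have := norm_sub_le (u ^ 3 * (u + 2 * h)) ((h : ℂ) ^ 3 * (2 * u + h))
    rw [← e3] at this
    linarith

theorem multi_bound (s : Multiset ℂ) (R p h : ℝ) (hR : ∀ z ∈ s, ‖z‖ ≤ R) (hp : R + 1 ≤ p)
    (hh : 0 ≤ h) (hε : 2 * h ^ 3 ≤ 1) :
    let F : ℝ → ℝ := fun x => ‖(s.map fun z => (x : ℂ) - z).prod‖
    (1 - 2 * h ^ 3) ^ s.card * (F p ^ 3 * F (p + 2 * h)) ≤ F (p - h) * F (p + h) ^ 3 ∧
      F (p - h) * F (p + h) ^ 3 ≤ (1 + 2 * h ^ 3) ^ s.card * (F p ^ 3 * F (p + 2 * h)) := by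
  induction s using Multiset.induction_on with
  | empty => simp
  | cons z s ih =>
    obtain ⟨i1, i2⟩ := ih (fun w hw => hR w (Multiset.mem_cons_of_mem hw))
    have hz : 1 ≤ ((p : ℂ) - z).re := by
      have := (Complex.re_le_norm z).trans (hR z (Multiset.mem_cons_self _ _))
      simp only [Complex.sub_re, Complex.ofReal_re]
      linarith
    obtain ⟨j1, j2⟩ := one_root ((p : ℂ) - z) h hh hz
    have a1 : ((p + 2 * h : ℝ) : ℂ) - z = (p : ℂ) - z + 2 * h := by push_cast; ring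
    have a2 : ((p - h : ℝ) : ℂ) - z = (p : ℂ) - z - h := by push_cast; ring
    have a3 : ((p + h : ℝ) : ℂ) - z = (p : ℂ) - z + h := by push_cast; ring
    simp only [Multiset.map_cons, Multiset.prod_cons, norm_mul, Multiset.card_cons] at *
    rw [a1, a2, a3]
    have hε' : 0 ≤ 1 - 2 * h ^ 3 := by linarith
    constructor
    · have := mul_le_mul i1 j1 (by positivity) (by positivity)
      calc _ = _ := by ring
        _ ≤ _ := this
        _ = _ := by ring
    · have := mul_le_mul i2 j2 (by positivity) (by positivity)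
      calc _ = _ := by ring
        _ ≤ _ := this
        _ = _ := by ring

theorem poly_bound (f : Polynomial ℂ) (m : ℕ) (hm : f.natDegree ≤ m) (R p h : ℝ)
    (hR : ∀ z, f.IsRoot z → ‖z‖ ≤ R) (hp : R + 1 ≤ p) (hh : 0 ≤ h) (hε : 2 * h ^ 3 ≤ 1) :
    let F : ℝ → ℝ := fun x => ‖f.eval (x : ℂ)‖
    (1 - 2 * h ^ 3) ^ m * (F p ^ 3 * F (p + 2 * h)) ≤ F (p - h) * F (p + h) ^ 3 ∧
      F (p - h) * F (p + h) ^ 3 ≤ (1 + 2 * h ^ 3) ^ m * (F p ^ 3 * F (p + 2 * h)) := by
  intro F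
  have hc : f.roots.card = f.natDegree := IsAlgClosed.card_roots_eq_natDegree
  have hf := Polynomial.C_leadingCoeff_mul_prod_multiset_X_sub_C hc
  have hF : ∀ x : ℝ, F x = ‖f.leadingCoeff‖ * ‖(f.roots.map fun z => (x : ℂ) - z).prod‖ := by
    intro x
    show ‖f.eval (x : ℂ)‖ = _
    conv_lhs => rw [← hf]
    rw [Polynomial.eval_mul, Polynomial.eval_C, Polynomial.eval_multiset_prod, norm_mul,
      Multiset.map_map]
    simp
  obtain ⟨i1, i2⟩ := multi_bound f.roots R p h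
    (fun z hz => hR z (Polynomial.isRoot_of_mem_roots hz)) hp hh hε
  simp only [hF]
  have hε' : 0 ≤ 1 - 2 * h ^ 3 := by linarith
  have h3 : 0 ≤ 2 * h ^ 3 := by positivity
  have k1 : (1 - 2 * h ^ 3) ^ m ≤ (1 - 2 * h ^ 3) ^ f.roots.card :=
    pow_le_pow_of_le_one hε' (by linarith) (by omega)
  have k2 : (1 + 2 * h ^ 3) ^ f.roots.card ≤ (1 + 2 * h ^ 3) ^ m :=
    pow_le_pow_right₀ (by linarith) (by omega)
  have hl : 0 ≤ ‖f.leadingCoeff‖ ^ 4 := by positivity
  constructor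
  · have := mul_le_mul_of_nonneg_left
      ((mul_le_mul_of_nonneg_right k1 (by positivity)).trans i1) hl
    calc _ = _ := by ring
      _ ≤ _ := this
      _ = _ := by ring
  · have := mul_le_mul_of_nonneg_left
      (i2.trans (mul_le_mul_of_nonneg_right k2 (by positivity))) hl
    calc _ = _ := by ring
      _ ≤ _ := this
      _ = _ := by ring

theorem d_one (y : ℝ) (β k : ℕ) (h : β ≤ k) : d y β k = 1 := by
  induction β generalizing k with
  | zero => simp [d]
  | succ β ih =>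
    obtain ⟨k, rfl⟩ : ∃ j, k = j + 1 := ⟨k - 1, by omega⟩
    rw [d, ih _ (by omega), ih _ (by omega)]; ring

noncomputable def e (y : ℝ) (β k : ℕ) : ℝ := (-1) ^ (β + k) * d y β k

theorem e_zero (y : ℝ) (β : ℕ) : e y (β + 1) 0 = (y - 1) * e y β 0 := by
  unfold e; rw [d]; ring

theorem e_succ (y : ℝ) (β k : ℕ) : e y (β + 1) (k + 1) = (y - 1) * e y β (k + 1) + y * e y β k := by
  unfold e; rw [d]; ring

theorem e_self (y : ℝ) (β : ℕ) : e y β β = 1 := by
  unfold e; rw [d_one y β β le_rfl, ← two_mul, pow_mul]; simp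

theorem e_upper (y : ℝ) (hy : 1 ≤ y) (β k : ℕ) (h : k ≤ β) :
    e y β k ≤ (β.choose k : ℝ) * ((y - 1) ^ (β - k) * y ^ k) := by
  have hy' : 0 ≤ y - 1 := by linarith
  induction β generalizing k with
  | zero =>
    obtain rfl : k = 0 := by omega
    simp [e, d]
  | succ β ih =>
    cases k with
    | zero =>
      rw [e_zero]
      have := mul_le_mul_of_nonneg_left (ih 0 (by omega)) hy'
      simpa [pow_succ, mul_comm] using this
    | succ k =>
      by_cases hk : k + 1 ≤ β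
      · rw [e_succ, Nat.choose_succ_succ', show β + 1 - (k + 1) = (β - (k + 1)) + 1 by omega]
        have h1 := mul_le_mul_of_nonneg_left (ih (k + 1) hk) hy'
        have h2 := mul_le_mul_of_nonneg_left (ih k (by omega)) (by linarith : 0 ≤ y)
        rw [show β - k = (β - (k + 1)) + 1 by omega] at h2
        push_cast
        calc _ ≤ _ := add_le_add h1 h2
          _ = _ := by ring
      · obtain rfl : k = β := by omega
        rw [e_self]
        simpa using one_le_pow₀ hy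

theorem e_lower (y : ℝ) (hy : 1 ≤ y) (β k : ℕ) (h : k ≤ β) :
    (β.choose k : ℝ) * ((y - 1) ^ (β + 1 - k) * y ^ k) ≤ e y (β + 1) k := by
  have hy' : 0 ≤ y - 1 := by linarith
  induction β generalizing k with
  | zero =>
    obtain rfl : k = 0 := by omega
    simp [e, d]
  | succ β ih =>
    cases k with
    | zero =>
      rw [e_zero]
      have := mul_le_mul_of_nonneg_left (ih 0 (by omega)) hy'
      simpa [pow_succ, mul_comm] using this
    | succ k =>
      by_cases hk : k + 1 ≤ β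
      · rw [e_succ, Nat.choose_succ_succ',
          show β + 1 + 1 - (k + 1) = (β + 1 - (k + 1)) + 1 by omega]
        have h1 := mul_le_mul_of_nonneg_left (ih (k + 1) hk) hy'
        have h2 := mul_le_mul_of_nonneg_left (ih k (by omega)) (by linarith : 0 ≤ y)
        rw [show β + 1 - k = (β + 1 - (k + 1)) + 1 by omega] at h2
        generalize β + 1 - (k + 1) = j at h1 h2 ⊢
        push_cast
        calc _ = _ := by ring
          _ ≤ _ := add_le_add h1 h2
      · obtain rfl : k = β := by omega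
        rw [e_succ, e_self]
        have h2 := mul_le_mul_of_nonneg_left (ih k le_rfl) (by linarith : 0 ≤ y)
        rw [show k + 1 + 1 - (k + 1) = 1 by omega]
        rw [show k + 1 - k = 1 by omega] at h2
        simp only [Nat.choose_self, Nat.cast_one, one_mul, pow_one, mul_one] at h2 ⊢
        calc (y - 1) * y ^ (k + 1) = y * ((y - 1) * y ^ k) := by ring
          _ ≤ _ := by linarith

/-- The terms of the reliability function. -/
noncomputable def t (r i : ℕ) (x : ℝ) : ℝ :=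
  (r.choose i : ℝ) * (x ^ i * (x - 1) ^ (r - i) * e (x ^ 2) (r + 1) (r - i))

noncomputable def K (r : ℕ) (x : ℝ) : ℝ := (x - 1) ^ r * (x ^ 2 - 1) * (x ^ 2) ^ r

noncomputable def c (r i : ℕ) (x : ℝ) : ℝ := (r.choose i : ℝ) ^ 2 * ((x + 1) / x) ^ i

theorem K_pos (r : ℕ) {x : ℝ} (hx : 1 < x) : 0 < K r x := by
  have h1 : 0 < x - 1 := by linarith
  have h2 : 0 < x ^ 2 - 1 := by nlinarith
  unfold K; positivity

theorem t_bounds (r i : ℕ) (hi : i ≤ r) {x : ℝ} (hx : 1 < x) :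
    K r x * c r i x ≤ t r i x ∧ t r i x ≤ (r + 1) * (K r x * c r i x) := by
  obtain ⟨k, rfl⟩ : ∃ k, r = i + k := ⟨r - i, by omega⟩
  have hy : 1 ≤ x ^ 2 := by nlinarith
  have h1 := e_lower (x ^ 2) hy (i + k) k (by omega)
  have h2 := e_upper (x ^ 2) hy (i + k + 1) k (by omega)
  rw [show i + k + 1 - k = i + 1 by omega] at h1 h2
  have hs : (i + k).choose k = (i + k).choose i := Nat.choose_symm_add.symm
  have h3 : (((i + k + 1).choose k : ℕ) : ℝ) ≤ ((i + k : ℕ) + 1) * ((i + k).choose i : ℝ) := by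
    have := Nat.choose_mul_succ_eq (i + k) k
    rw [show i + k + 1 - k = i + 1 by omega, hs] at this
    have h4 : (i + k + 1).choose k ≤ (i + k + 1) * (i + k).choose i := by nlinarith
    exact_mod_cast h4
  rw [hs] at h1
  have hx0 : 0 < x := by linarith
  have hx1 : 0 < x - 1 := by linarith
  have hx2 : 0 < x ^ 2 - 1 := by nlinarith
  have key : K (i + k) x * c (i + k) i x = ((i + k).choose i : ℝ) * (x ^ i * (x - 1) ^ k *
      (((i + k).choose i : ℝ) * ((x ^ 2 - 1) ^ (i + 1) * (x ^ 2) ^ k))) := by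
    unfold K c
    have : x ^ 2 - 1 = (x - 1) * (x + 1) := by ring
    rw [this, div_pow, mul_pow]
    field_simp
    ring
  unfold t
  rw [show i + k - i = k by omega, key]
  constructor
  · gcongr
  · calc _ ≤ ((i + k).choose i : ℝ) * (x ^ i * (x - 1) ^ k * ((((i + k : ℕ) + 1) *
          ((i + k).choose i : ℝ)) * ((x ^ 2 - 1) ^ (i + 1) * (x ^ 2) ^ k))) := by
          gcongr
          refine h2.trans ?_
          gcongr
      _ = _ := by ring

theorem c_nonneg (r i : ℕ) {x : ℝ} (hx : 1 < x) : 0 ≤ c r i x := by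
  have : 0 < x := by linarith
  unfold c; positivity

theorem t_nonneg (r i : ℕ) (hi : i ≤ r) {x : ℝ} (hx : 1 < x) : 0 ≤ t r i x :=
  (mul_nonneg (K_pos r hx).le (c_nonneg r i hx)).trans (t_bounds r i hi hx).1

theorem abs_rel (r a : ℕ) (ha : a ≤ r) {x : ℝ} (hx : 1 < x) :
    |rel r (r + 1) a r x| = ∑ i ∈ range (a + 1), t r i x := by
  have : rel r (r + 1) a r x = (-1) ^ (r + 1) * ∑ i ∈ range (a + 1), t r i x := by
    rw [rel_eq r (r + 1) a r ha ha, mul_sum]
    refine sum_congr rfl fun i _ => ?_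
    unfold t e
    have h1 : (1 - x) ^ (r - i) = (-1) ^ (r - i) * (x - 1) ^ (r - i) := by
      rw [← mul_pow]; congr 1; ring
    have h2 : ((-1 : ℝ)) ^ (r + 1) * (-1) ^ (r + 1) = 1 := by
      rw [← mul_pow]; simp
    rw [h1, pow_add (-1 : ℝ) (r + 1) (r - i)]
    linear_combination (-((r.choose i : ℝ) * x ^ i * (-1) ^ (r - i) * (x - 1) ^ (r - i) *
      d (x ^ 2) (r + 1) (r - i))) * h2
  rw [this, abs_mul, abs_pow, abs_neg, abs_one, one_pow, one_mul, abs_of_nonneg]
  exact sum_nonneg fun i hi => t_nonneg r i (by rw [mem_range] at hi; omega) hx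

end Pool.Agent.H149Z.Rel
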