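import Pool.Agent.H149Z.RelB

/-! The phase transition and the contradiction. -/

set_option autoImplicit false

namespace Pool.Agent.H149Z.Rel

open Finset Filter Topology

noncomputable def g (a b i : ℕ) : ℝ := ((a + b).choose i : ℝ) * ((a : ℝ) / b) ^ i

theorem g_nonneg (a b i : ℕ) : 0 ≤ g a b i := by unfold g; positivity

theorem g_step (a b i : ℕ) (hi : i ≤ a + b) :
    g a b (i + 1) * (i + 1) = g a b i * (((a : ℝ) + b - i) * (a / b)) := by
  have h := Nat.choose_succ_right_eq (a + b) i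
  have h' : (((a + b).choose (i + 1) : ℕ) : ℝ) * (i + 1) =
      ((a + b).choose i : ℝ) * ((a : ℝ) + b - i) := by
    have := congrArg (Nat.cast : ℕ → ℝ) h
    push_cast [Nat.cast_sub hi] at this
    exact this
  unfold g
  linear_combination ((a : ℝ) / b) ^ (i + 1) * h'

theorem g_mode (a b : ℕ) (hb : 0 < b) (i : ℕ) (hi : i ≤ a + b) : g a b i ≤ g a b a := by
  have hb' : (0 : ℝ) < b := by exact_mod_cast hb
  have hab : (b : ℝ) * (a / b) = a := by field_simp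
  have hl : (0 : ℝ) ≤ a / b := by positivity
  rcases le_total i a with h | h
  · have key : ∀ j, j ≤ a → g a b (a - j) ≤ g a b a := by
      intro j hj
      induction j with
      | zero => simp
      | succ j ih =>
        refine le_trans ?_ (ih (by omega))
        have e := g_step a b (a - (j + 1)) (by omega)
        rw [show a - (j + 1) + 1 = a - j by omega] at e
        have h1 : ((a - (j + 1) : ℕ) : ℝ) + 1 ≤ a := by
          exact_mod_cast (by omega : a - (j + 1) + 1 ≤ a)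
        have h0 : (0 : ℝ) < ((a - (j + 1) : ℕ) : ℝ) + 1 := by positivity
        have h2 : ((a - (j + 1) : ℕ) : ℝ) + 1 ≤
            ((a : ℝ) + b - ((a - (j + 1) : ℕ) : ℝ)) * (a / b) := by nlinarith
        have h3 := mul_le_mul_of_nonneg_left h2 (g_nonneg a b (a - (j + 1)))
        rw [← e] at h3
        exact le_of_mul_le_mul_right h3 h0
    have := key (a - i) (by omega)
    rwa [show a - (a - i) = i by omega] at this
  · induction i, h using Nat.le_induction with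
    | base => exact le_rfl
    | succ j hj ih =>
      refine le_trans ?_ (ih (by omega))
      have e := g_step a b j (by omega)
      have h1 : (a : ℝ) ≤ j := by exact_mod_cast hj
      have h2 : ((a : ℝ) + b - j) * (a / b) ≤ j + 1 := by nlinarith
      have h3 := mul_le_mul_of_nonneg_left h2 (g_nonneg a b j)
      rw [← e] at h3
      exact le_of_mul_le_mul_right h3 (by positivity)

theorem g_gain (a b s : ℕ) (γ : ℝ) (hb : 0 < b) (hba : b ≤ a) (hs : s ≤ b) (hγ0 : 0 ≤ γ)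
    (hγ : γ * b ≤ b - 2 * s) (j : ℕ) (hj : j ≤ s) : γ ^ j * g a b a ≤ g a b (a + j) := by
  have hb' : (0 : ℝ) < b := by exact_mod_cast hb
  have hba' : (b : ℝ) ≤ a := by exact_mod_cast hba
  induction j with
  | zero => simp
  | succ j ih =>
    have e := g_step a b (a + j) (by omega)
    have h1 : (j : ℝ) + 1 ≤ s := by exact_mod_cast hj
    have hj0 : (0 : ℝ) ≤ j := by positivity
    have h2 : γ * (((a + j : ℕ) : ℝ) + 1) ≤ ((a : ℝ) + b - ((a + j : ℕ) : ℝ)) * (a / b) := by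
      push_cast
      rw [← mul_div_assoc, le_div_iff₀ hb']
      have h3 : γ * (a + j + 1) * b ≤ (b - 2 * s) * (a + s) := by
        calc γ * (a + j + 1) * b = (γ * b) * (a + j + 1) := by ring
          _ ≤ (γ * b) * (a + s) := mul_le_mul_of_nonneg_left (by linarith) (by positivity)
          _ ≤ _ := by gcongr
      have hs0 : (0 : ℝ) ≤ s := by positivity
      nlinarith
    have h3 := mul_le_mul_of_nonneg_left h2 (g_nonneg a b (a + j))
    rw [← e] at h3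
    have h4 : g a b (a + j) * γ ≤ g a b (a + j + 1) := by
      refine le_of_mul_le_mul_right ?_ (by positivity : (0 : ℝ) < ((a + j : ℕ) : ℝ) + 1)
      linarith
    have h5 := mul_le_mul_of_nonneg_right (ih (by omega)) hγ0
    calc γ ^ (j + 1) * g a b a = γ ^ j * g a b a * γ := by ring
      _ ≤ _ := h5.trans h4

theorem c_eq (a b i : ℕ) (x μ : ℝ) (h : (x + 1) / x = ((a : ℝ) / b) ^ 2 * μ) :
    c (a + b) i x = g a b i ^ 2 * μ ^ i := by
  unfold c g
  rw [h, mul_pow, mul_pow, ← pow_mul, ← pow_mul, mul_comm i 2]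
  ring

theorem low_side (a b : ℕ) (hb : 0 < b) {x μ : ℝ} (hx : 1 < x) (h0 : 0 ≤ μ) (h1 : μ ≤ 1)
    (h : (x + 1) / x = ((a : ℝ) / b) ^ 2 * μ) :
    ∑ i ∈ range (a + b + 1), t (a + b) i x ≤
      (((a + b : ℕ) : ℝ) + 1) ^ 2 * ∑ i ∈ range (a + 1), t (a + b) i x := by
  have hK := (K_pos (a + b) hx).le
  have k1 : ∀ i ≤ a, K (a + b) x * c (a + b) i x ≤ ∑ i ∈ range (a + 1), t (a + b) i x := by
    intro i hi
    refine (t_bounds (a + b) i (by omega) hx).1.trans ?_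
    exact single_le_sum (f := fun i => t (a + b) i x)
      (fun j hj => t_nonneg _ _ (by rw [mem_range] at hj; omega) hx) (by rw [mem_range]; omega)
  have k2 : ∀ i ∈ range (a + b + 1), t (a + b) i x ≤
      (((a + b : ℕ) : ℝ) + 1) * ∑ i ∈ range (a + 1), t (a + b) i x := by
    intro i hi
    rw [mem_range] at hi
    refine (t_bounds (a + b) i (by omega) hx).2.trans ?_
    gcongr
    rcases le_total i a with hia | hia
    · exact k1 i hia
    · refine le_trans ?_ (k1 a le_rfl)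
      rw [c_eq a b i x μ h, c_eq a b a x μ h]
      have := g_mode a b hb i (by omega)
      have := g_nonneg a b i
      have := pow_le_pow_of_le_one h0 h1 hia
      gcongr
  refine (sum_le_card_nsmul _ _ _ k2).trans (le_of_eq ?_)
  rw [card_range, nsmul_eq_mul]
  push_cast
  ring

theorem high_side (a b s : ℕ) (γ : ℝ) (hb : 0 < b) (hba : b ≤ a) (hs : s ≤ b) (hγ0 : 0 ≤ γ)
    (hγ : γ * b ≤ b - 2 * s) {x μ : ℝ} (hx : 1 < x) (h1 : 1 ≤ μ)
    (h : (x + 1) / x = ((a : ℝ) / b) ^ 2 * μ) :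
    (γ ^ 2 * μ) ^ s * ∑ i ∈ range (a + 1), t (a + b) i x ≤
      (((a + b : ℕ) : ℝ) + 1) ^ 2 * ∑ i ∈ range (a + b + 1), t (a + b) i x := by
  have hK := (K_pos (a + b) hx).le
  have k2 : ∀ i ∈ range (a + 1), t (a + b) i x ≤
      (((a + b : ℕ) : ℝ) + 1) * (K (a + b) x * c (a + b) a x) := by
    intro i hi
    rw [mem_range] at hi
    refine (t_bounds (a + b) i (by omega) hx).2.trans ?_
    rw [c_eq a b i x μ h, c_eq a b a x μ h]
    have := g_mode a b hb i (by omega)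
    have := g_nonneg a b i
    have := pow_le_pow_right₀ h1 (show i ≤ a by omega)
    gcongr
  have k3 := sum_le_card_nsmul _ _ _ k2
  rw [card_range, nsmul_eq_mul] at k3
  have k4 : (γ ^ 2 * μ) ^ s * c (a + b) a x ≤ c (a + b) (a + s) x := by
    rw [c_eq a b (a + s) x μ h, c_eq a b a x μ h]
    have h2 := g_gain a b s γ hb hba hs hγ0 hγ s le_rfl
    have h3 := g_nonneg a b a
    calc _ = (γ ^ s * g a b a) ^ 2 * μ ^ (a + s) := by ring
      _ ≤ _ := by gcongr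
  have k5 : K (a + b) x * c (a + b) (a + s) x ≤ ∑ i ∈ range (a + b + 1), t (a + b) i x := by
    refine (t_bounds (a + b) (a + s) (by omega) hx).1.trans ?_
    exact single_le_sum (f := fun i => t (a + b) i x)
      (fun j hj => t_nonneg _ _ (by rw [mem_range] at hj; omega) hx) (by rw [mem_range]; omega)
  have k6 : ((a + 1 : ℕ) : ℝ) ≤ ((a + b : ℕ) : ℝ) + 1 := by
    push_cast
    have : (0 : ℝ) ≤ b := by positivity
    linarith
  have hc := c_nonneg (a + b) a hx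
  have hμ : 0 ≤ μ := by linarith
  calc _ ≤ (γ ^ 2 * μ) ^ s * ((((a + b : ℕ) : ℝ) + 1) * ((((a + b : ℕ) : ℝ) + 1) *
        (K (a + b) x * c (a + b) a x))) := by
        gcongr
        refine k3.trans ?_
        gcongr
    _ = (((a + b : ℕ) : ℝ) + 1) ^ 2 * (K (a + b) x * ((γ ^ 2 * μ) ^ s * c (a + b) a x)) := by ring
    _ ≤ _ := by
        gcongr
        exact le_trans (by gcongr) k5

theorem combine (R : ℝ) (hpoly : ∀ α β a r : ℕ, ∃ f : Polynomial ℂ, f.natDegree ≤ α + (β + β) ∧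
      (∀ z, f.IsRoot z → ‖z‖ ≤ R) ∧ ∀ p : ℝ, f.eval (p : ℂ) = (rel α β a r p : ℝ))
    (a b s : ℕ) (γ μ p h : ℝ) (hb : 0 < b) (hba : b ≤ a) (hs : s ≤ b) (hγ0 : 0 ≤ γ)
    (hγ : γ * b ≤ b - 2 * s) (hp : R + 1 ≤ p) (hh : 0 ≤ h) (hε : 2 * h ^ 3 ≤ 1) (hx : 1 < p - h)
    (h1 : 1 ≤ μ) (hp0 : (p + 1) / p = ((a : ℝ) / b) ^ 2)
    (hμ : (p - h + 1) / (p - h) = ((a : ℝ) / b) ^ 2 * μ) :
    (1 - 2 * h ^ 3) ^ (3 * (a + b) + 2) * (γ ^ 2 * μ) ^ s ≤
      (((a + b : ℕ) : ℝ) + 1) ^ 10 * (1 + 2 * h ^ 3) ^ (3 * (a + b) + 2) := by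
  set r := a + b with hr
  obtain ⟨f1, d1, r1, e1⟩ := hpoly r (r + 1) a r
  obtain ⟨f2, d2, r2, e2⟩ := hpoly r (r + 1) r r
  have i1 := (poly_bound f1 (3 * r + 2) (by omega) R p h r1 hp hh hε).1
  have i2 := (poly_bound f2 (3 * r + 2) (by omega) R p h r2 hp hh hε).2
  have hp1 : 1 < p := by linarith
  have hp2 : 1 < p + h := by linarith
  have hp3 : 1 < p + 2 * h := by linarith
  simp only [e1, e2, Complex.norm_real, Real.norm_eq_abs] at i1 i2
  rw [abs_rel r a (by omega) hp1, abs_rel r a (by omega) hp2, abs_rel r a (by omega) hp3,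
    abs_rel r a (by omega) hx] at i1
  rw [abs_rel r r le_rfl hp1, abs_rel r r le_rfl hp2, abs_rel r r le_rfl hp3,
    abs_rel r r le_rfl hx] at i2
  have l1 := low_side a b hb hp1 zero_le_one le_rfl (by rw [hp0, mul_one])
  have hab : (0 : ℝ) < ((a : ℝ) / b) ^ 2 := by rw [← hp0]; positivity
  have l3 := low_side a b hb hp3 (μ := ((p + 2 * h + 1) / (p + 2 * h)) / ((a : ℝ) / b) ^ 2)
    (by positivity) (by
      rw [div_le_one hab, ← hp0, div_le_div_iff₀ (by linarith) (by linarith)]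
      nlinarith) (by rw [mul_div_cancel₀ _ hab.ne'])
  have l0 := high_side a b s γ hb hba hs hγ0 hγ hx h1 hμ
  have l2 : ∑ i ∈ range (a + 1), t r i (p + h) ≤ ∑ i ∈ range (r + 1), t r i (p + h) :=
    sum_le_sum_of_subset_of_nonneg (range_mono (by omega))
      (fun j hj _ => t_nonneg _ _ (by rw [mem_range] at hj; omega) hp2)
  have pos : ∀ x : ℝ, 1 < x → ∀ k ≤ r, 0 < ∑ i ∈ range (k + 1), t r i x := by
    intro x hx k hk
    refine lt_of_lt_of_le ?_ (single_le_sum (f := fun i => t r i x)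
      (fun j hj => t_nonneg _ _ (by rw [mem_range] at hj; omega) hx)
      (show 0 ∈ range (k + 1) by simp))
    refine lt_of_lt_of_le ?_ (t_bounds r 0 (by omega) hx).1
    have := K_pos r hx
    simpa [c] using this
  rw [← hr] at l0 l1 l3
  have pA0 := pos _ hx a (by omega)
  have pA1 := pos _ hp1 a (by omega)
  have pA2 := pos _ hp2 a (by omega)
  have pA3 := pos _ hp3 a (by omega)
  have pB0 := pos _ hx r le_rfl
  have pB1 := pos _ hp1 r le_rfl
  have pB2 := pos _ hp2 r le_rfl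
  have pB3 := pos _ hp3 r le_rfl
  generalize ∑ i ∈ range (a + 1), t r i (p - h) = A0 at *
  generalize ∑ i ∈ range (a + 1), t r i p = A1 at *
  generalize ∑ i ∈ range (a + 1), t r i (p + h) = A2 at *
  generalize ∑ i ∈ range (a + 1), t r i (p + 2 * h) = A3 at *
  generalize ∑ i ∈ range (r + 1), t r i (p - h) = B0 at *
  generalize ∑ i ∈ range (r + 1), t r i p = B1 at *
  generalize ∑ i ∈ range (r + 1), t r i (p + h) = B2 at *
  generalize ∑ i ∈ range (r + 1), t r i (p + 2 * h) = B3 at *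
  have hε' : 0 ≤ 1 - 2 * h ^ 3 := by linarith
  have hμ0 : 0 ≤ μ := by linarith
  refine le_of_mul_le_mul_right ?_ (by positivity : 0 < B1 ^ 3 * B3)
  calc (1 - 2 * h ^ 3) ^ (3 * r + 2) * (γ ^ 2 * μ) ^ s * (B1 ^ 3 * B3)
      ≤ (1 - 2 * h ^ 3) ^ (3 * r + 2) * (γ ^ 2 * μ) ^ s *
        ((((r : ℝ) + 1) ^ 2 * A1) ^ 3 * (((r : ℝ) + 1) ^ 2 * A3)) := by gcongr
    _ = ((r : ℝ) + 1) ^ 8 * (γ ^ 2 * μ) ^ s * ((1 - 2 * h ^ 3) ^ (3 * r + 2) * (A1 ^ 3 * A3)) := by
        ring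
    _ ≤ ((r : ℝ) + 1) ^ 8 * (γ ^ 2 * μ) ^ s * (A0 * A2 ^ 3) := by gcongr
    _ = ((r : ℝ) + 1) ^ 8 * (((γ ^ 2 * μ) ^ s * A0) * A2 ^ 3) := by ring
    _ ≤ ((r : ℝ) + 1) ^ 8 * ((((r : ℝ) + 1) ^ 2 * B0) * B2 ^ 3) := by gcongr
    _ = ((r : ℝ) + 1) ^ 10 * (B0 * B2 ^ 3) := by ring
    _ ≤ ((r : ℝ) + 1) ^ 10 * ((1 + 2 * h ^ 3) ^ (3 * r + 2) * (B1 ^ 3 * B3)) := by gcongr
    _ = _ := by ring

theorem final (R : ℝ) (hpoly : ∀ α β a r : ℕ, ∃ f : Polynomial ℂ, f.natDegree ≤ α + (β + β) ∧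
      (∀ z, f.IsRoot z → ‖z‖ ≤ R) ∧ ∀ p : ℝ, f.eval (p : ℂ) = (rel α β a r p : ℝ)) : False := by
  obtain ⟨Q, hQ⟩ := exists_nat_ge (3 * (|R| + 2))
  have hR := le_abs_self R
  have hR0 := abs_nonneg R
  have hQ6 : (6 : ℝ) ≤ Q := by linarith
  have hQ0 : (0 : ℝ) < Q := by linarith
  have hQn : 0 < Q := by exact_mod_cast hQ0
  set p : ℝ := (Q : ℝ) ^ 2 / (2 * Q + 1) with hpdef
  have hp : |R| + 2 ≤ p := by
    rw [hpdef, le_div_iff₀ (by positivity)]
    nlinarith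
  set h : ℝ := 1 / (600 * (Q : ℝ) ^ 4) with hhdef
  have hQ2 : (1 : ℝ) ≤ (Q : ℝ) ^ 2 := by nlinarith
  have hQ4 : (1 : ℝ) ≤ (Q : ℝ) ^ 4 := by nlinarith
  have hh : 0 < h := by positivity
  have hh1 : h ≤ 1 / 600 := by
    rw [hhdef]; apply one_div_le_one_div_of_le <;> linarith
  have hh3 : 2 * h ^ 3 ≤ 1 / 2 := by
    have : h ^ 3 ≤ (1 / 600) ^ 3 := by gcongr
    norm_num at this ⊢; linarith
  set η : ℝ := h / (Q : ℝ) ^ 2 with hηdef
  have hη : 0 < η := by positivity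
  have hη1 : η ≤ 1 / 600 := (div_le_self hh.le hQ2).trans hh1
  set L : ℕ := 4800 * Q ^ 5 with hL
  set cc : ℕ := 3 * ((2 * Q + 1) * L) + 2 with hcc
  have hp0 : (p + 1) / p = (((Q : ℝ) + 1) / Q) ^ 2 := by
    rw [hpdef]; field_simp; ring
  set μ : ℝ := ((p - h + 1) / (p - h)) / (((Q : ℝ) + 1) / Q) ^ 2 with hμdef
  have hx : 1 < p - h := by linarith
  have hμ : 1 + 2 * η ≤ μ := by
    have h1 : p * (p + 1) ≤ (Q : ℝ) ^ 2 / 2 := by
      have : p * (p + 1) = (Q : ℝ) ^ 2 * ((Q + 1) ^ 2 / (2 * Q + 1) ^ 2) := by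
        rw [hpdef]; field_simp; ring
      rw [this, div_eq_mul_one_div ((Q : ℝ) ^ 2) 2]
      refine mul_le_mul_of_nonneg_left ?_ (by positivity)
      rw [div_le_div_iff₀ (by positivity) (by positivity)]
      nlinarith
    have h2 : η * (Q : ℝ) ^ 2 = h := by rw [hηdef]; field_simp
    have h3 : 2 * η * (p * (p + 1)) ≤ h := by nlinarith
    rw [hμdef, ← hp0, le_div_iff₀ (by positivity), ← mul_div_assoc,
      div_le_div_iff₀ (by linarith) (by linarith)]
    have h4 : 0 ≤ η * (p + 1) * h := by positivity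
    nlinarith
  have hεc : 4 * h ^ 3 * cc ≤ η / 2 := by
    have h1 : (cc : ℝ) ≤ 74 * (Q : ℝ) ^ 2 * (600 * (Q : ℝ) ^ 4) := by
      rw [hcc, hL]
      push_cast
      have h5 : (1 : ℝ) ≤ (Q : ℝ) ^ 5 := one_le_pow₀ (by linarith)
      have h6 : (Q : ℝ) ^ 2 * (Q : ℝ) ^ 4 = Q * (Q : ℝ) ^ 5 := by ring
      nlinarith
    calc 4 * h ^ 3 * cc ≤ 4 * h ^ 3 * (74 * (Q : ℝ) ^ 2 * (600 * (Q : ℝ) ^ 4)) := by gcongr
      _ = (296 / 600) * η := by rw [hηdef, hhdef]; field_simp; ring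
      _ ≤ η / 2 := by linarith
  set κ : ℝ := (1 - η / 2) * ((1 - η / 4) ^ 2 * μ) with hκ
  have hκ1 : 1 < κ := by
    have h1 : 1 - η / 2 ≤ (1 - η / 4) ^ 2 := by nlinarith
    have h2 : (1 - η / 2) * ((1 - η / 2) * (1 + 2 * η)) ≤ κ := by
      rw [hκ]; gcongr
      · linarith
    nlinarith
  have main : ∀ s : ℕ, 1 ≤ s → κ ^ s ≤ (cc : ℝ) ^ 10 * (s : ℝ) ^ 10 := by
    intro s hs
    have hLpos : 0 < L := by rw [hL]; positivity
    have hs0 : (0 : ℝ) < s := by exact_mod_cast hs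
    have hL0 : (0 : ℝ) < L := by exact_mod_cast hLpos
    have hdiv : (((Q + 1) * (L * s) : ℕ) : ℝ) / ((Q * (L * s) : ℕ) : ℝ) = ((Q : ℝ) + 1) / Q := by
      push_cast; field_simp
    have hc := combine R hpoly ((Q + 1) * (L * s)) (Q * (L * s)) s (1 - η / 4) μ p h
      (by positivity) (by gcongr; omega) (by nlinarith [Nat.mul_le_mul hQn hLpos])
      (by linarith) (by
        have : η / 4 * ((Q * (L * s) : ℕ) : ℝ) = 2 * s := by
          rw [hηdef, hhdef, hL]; push_cast; field_simp; ring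
        linarith) (by linarith) hh.le (by linarith) hx (by linarith) (by rw [hdiv, hp0])
      (by rw [hdiv, hμdef]; field_simp)
    set m := 3 * ((Q + 1) * (L * s) + Q * (L * s)) + 2 with hm
    have hm1 : m ≤ cc * s := by rw [hm, hcc]; nlinarith
    have hm2 : (((Q + 1) * (L * s) + Q * (L * s) : ℕ) : ℝ) + 1 ≤ cc * s := by
      have : (Q + 1) * (L * s) + Q * (L * s) + 1 ≤ cc * s := by omega
      exact_mod_cast this
    have hh3' : 0 < h ^ 3 := by positivity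
    have b1 : (1 - 4 * h ^ 3) * (1 + 2 * h ^ 3) ≤ 1 - 2 * h ^ 3 := by nlinarith
    have b0 : 0 ≤ 1 - 4 * h ^ 3 := by linarith
    have b2 : 1 - η / 2 ≤ (1 - 4 * h ^ 3) ^ cc := by
      have := one_add_mul_le_pow (a := -(4 * h ^ 3)) (by linarith) cc
      rw [← sub_eq_add_neg] at this
      linarith
    have b3 : (1 - η / 2) ^ s ≤ (1 - 4 * h ^ 3) ^ m := by
      calc (1 - η / 2) ^ s ≤ ((1 - 4 * h ^ 3) ^ cc) ^ s := by gcongr; linarith
        _ = (1 - 4 * h ^ 3) ^ (cc * s) := by rw [pow_mul]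
        _ ≤ _ := pow_le_pow_of_le_one b0 (by linarith) hm1
    have hμ0 : 0 ≤ μ := by linarith
    refine le_of_mul_le_mul_right ?_ (by positivity : 0 < (1 + 2 * h ^ 3) ^ m)
    calc κ ^ s * (1 + 2 * h ^ 3) ^ m
        = (1 - η / 2) ^ s * (1 + 2 * h ^ 3) ^ m * ((1 - η / 4) ^ 2 * μ) ^ s := by
          rw [hκ, mul_pow]; ring
      _ ≤ (1 - 4 * h ^ 3) ^ m * (1 + 2 * h ^ 3) ^ m * ((1 - η / 4) ^ 2 * μ) ^ s := by gcongr
      _ = ((1 - 4 * h ^ 3) * (1 + 2 * h ^ 3)) ^ m * ((1 - η / 4) ^ 2 * μ) ^ s := by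
          rw [mul_pow (1 - 4 * h ^ 3)]
      _ ≤ (1 - 2 * h ^ 3) ^ m * ((1 - η / 4) ^ 2 * μ) ^ s := by gcongr
      _ ≤ _ := hc
      _ ≤ ((cc : ℝ) * s) ^ 10 * (1 + 2 * h ^ 3) ^ m := by gcongr
      _ = _ := by rw [mul_pow]
  have lim := (tendsto_pow_const_div_const_pow_of_one_lt 10 hκ1).const_mul ((cc : ℝ) ^ 10)
  rw [mul_zero] at lim
  obtain ⟨s, hs1, hs2⟩ := ((lim.eventually (gt_mem_nhds zero_lt_one)).and
    (eventually_ge_atTop 1)).exists
  have := main s hs2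
  rw [← mul_div_assoc, div_lt_one (by positivity)] at hs1
  linarith

end Pool.Agent.H149Z.Rel
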